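import Pool.Agent.Y444.RP.Stm2

/-!
# Project RP, part 2 (helper444, MP_bc8021_gt): basic boxes in the countable power (helper41)
-/

set_option autoImplicit false

open Set TopologicalSpace

namespace Pool.Agent.Y41.RP

open Pool.Agent.Helper332.NB Pool.Agent.Y444.RP

theorem le_trans' {W : Type} [LinearOrder W] {A B C : Nd W} (h1 : A.le B) (h2 : B.le C) :
    A.le C :=
  ⟨h1.1.trans h2.1, fun i hi => (h1.2 i hi).trans (h2.2 i (lt_of_lt_of_le hi h1.1))⟩

theorem local_box {W : Type} [LinearOrder W] (hB : IsTopologicalBasis (Bs W)) (o : Set (Xs W))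
    (ho : IsOpen o) (y : Xs W) (hy : y ∈ o) : ∃ m : ℕ, ∀ n, m ≤ n → ∀ x : Xs W,
      ((y.2 = true → x = y) ∧ (y.2 = false → x ∈ Nb y.1 n)) → x ∈ o := by
  obtain ⟨s, hs, hys, hso⟩ := hB.exists_subset_of_mem_open hy ho
  obtain ⟨A, b⟩ := y
  cases b with
  | true => exact ⟨0, fun n _ x hx => (hx.1 rfl) ▸ hy⟩
  | false =>
    rcases hs with ⟨A', n', rfl⟩ | ⟨A', rfl⟩
    · obtain ⟨h1, h2 | ⟨h2, h3⟩⟩ := hys
      · have hA : A = A' := congrArg Prod.fst h2
        subst hA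
        refine ⟨n', fun n hn x hx => hso ?_⟩
        obtain ⟨h4, h5⟩ := hx.2 rfl
        refine ⟨h4, ?_⟩
        rcases h5 with h5 | ⟨h5, h6⟩
        · exact Or.inl h5
        · exact Or.inr ⟨h5, hn.trans h6⟩
      · refine ⟨0, fun n _ x hx => hso ?_⟩
        obtain ⟨h4, _⟩ := hx.2 rfl
        refine ⟨le_trans' h1 h4, Or.inr ⟨lt_of_lt_of_le h2 h4.1, ?_⟩⟩
        have h6 := h4.2 A'.len h2
        rw [← h6]
        exact h3
    · exfalso
      have : (A, false) = (A', true) := hys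
      have h7 := congrArg Prod.snd this
      simp at h7

theorem t : Top2Stm → Box2Stm := by
  intro hT W _ hW O q hO hq
  obtain ⟨-, hB, -, -⟩ := hT W hW
  rw [isOpen_pi_iff] at hO
  obtain ⟨I, o, ho, hsub⟩ := hO q hq
  have key : ∀ i : ℕ, ∃ m : ℕ, i ∈ I → ∀ n, m ≤ n → ∀ x : Xs W,
      (((q i).2 = true → x = q i) ∧ ((q i).2 = false → x ∈ Nb (q i).1 n)) → x ∈ o i := by
    intro i
    by_cases hi : i ∈ I
    · obtain ⟨m, hm⟩ := local_box hB (o i) (ho i hi).1 (q i) (ho i hi).2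
      exact ⟨m, fun _ => hm⟩
    · exact ⟨0, fun h => absurd h hi⟩
  choose N hN using key
  refine ⟨max (I.sup N) (I.sup id + 1), fun u hu => hsub ?_⟩
  intro i hi
  have hi' : i ∈ I := hi
  have h1 : N i ≤ I.sup N := Finset.le_sup (f := N) hi'
  have h2 : i ≤ I.sup id := Finset.le_sup (f := id) hi'
  refine hN i hi' _ (h1.trans (le_max_left _ _)) (u i) (hu i ?_)
  exact lt_of_lt_of_le (Nat.lt_succ_of_le h2) (le_max_right _ _)

end Pool.Agent.Y41.RP
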